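import Pool.Agent.Lib_MP_a1eae6_lc.MembPoly

/-!
# Isomorphic implication is complete for the second level of the polynomial hierarchy
-/

namespace Pool.Agent.Results.MP_a1eae6_lc.SigmaTwoComplete

open Pool.Agent.IsoImp

/-- `φ` isomorphically implies `ψ` with respect to the finite set `X` of variables: for some
permutation `π` of `X` (a permutation of all names that fixes every name outside `X`), every
assignment satisfying `π(φ)` satisfies `ψ`. -/
def IsoImpliesOn (X : Finset Name) (φ ψ : Fml Name) : Prop :=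
  ∃ π : Equiv.Perm Name, (∀ x, x ∉ X → π x = x) ∧
    ∀ a : Name → Bool, (φ.rename π).eval a = true → ψ.eval a = true

/-- The decision problem ISO-IMP, where `X φ ψ` is the finite set of variables taken for the pair
`φ, ψ`. A pair of formulas is written as the concatenation of their codes, the symbols of the
first being tagged `inl` and those of the second `inr`. -/
def IsoImp (X : Fml Name → Fml Name → Finset Name) : Set (List (Sym ⊕ Sym)) :=
  {w | ∃ φ ψ : Fml Name, w = φ.code.map Sum.inl ++ ψ.code.map Sum.inr ∧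
    IsoImpliesOn (X φ ψ) φ ψ}

/-- The set `X` of variables does not matter. -/
theorem on_iff (X : Finset Name) (φ ψ : Fml Name) (hX : φ.vars ∪ ψ.vars ⊆ (X : Set Name)) :
    IsoImpliesOn X φ ψ ↔ IsoImplies φ ψ := by
  constructor
  · rintro ⟨π, -, hπ⟩
    obtain ⟨σ, h1, h2⟩ := exists_perm {y | y ∈ φ.vars ∧ π y ∈ φ.vars ∪ ψ.vars}
      (φ.vars ∪ ψ.vars) ((vars_finite φ).union (vars_finite ψ)) (fun y hy => Or.inl hy.1) π
      (fun y hy => hy.2) (fun y _ y' _ h => π.injective h)
    refine ⟨σ, h2, fun a ha => ?_⟩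
    classical
    let b : Name → Bool := fun z =>
      if z ∈ φ.vars ∪ ψ.vars then a z else a (σ (π.symm z))
    have hb : ψ.eval b = ψ.eval a := by
      apply Fml.eval_congr
      intro y hy
      have hy' : y ∈ φ.vars ∪ ψ.vars := Or.inr hy
      show (if y ∈ φ.vars ∪ ψ.vars then a y else a (σ (π.symm y))) = a y
      rw [if_pos hy']
    rw [← hb]
    apply hπ
    rw [Fml.eval_rename] at ha ⊢
    rw [← ha]
    apply Fml.eval_congr
    intro y hy
    show (if π y ∈ φ.vars ∪ ψ.vars then a (π y) else a (σ (π.symm (π y)))) = a (σ y)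
    by_cases h : π y ∈ φ.vars ∪ ψ.vars
    · rw [if_pos h, h1 y ⟨hy, h⟩]
    · rw [if_neg h, Equiv.symm_apply_apply]
  · rintro ⟨π, h1, h2⟩
    exact ⟨π, fun x hx => h1 x fun h => hx (hX h), h2⟩

/-- ISO-IMP is `Σ₂ᵖ`-complete under polynomial-time many-one reductions, whatever finite sets
`X φ ψ` containing all variables of `φ` and of `ψ` are used to define it. -/
theorem result (X : Fml Name → Fml Name → Finset Name)
    (hX : ∀ φ ψ : Fml Name, φ.vars ∪ ψ.vars ⊆ (X φ ψ : Set Name)) :
    InSigmaTwo (IsoImp X) ∧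
    ∀ (Γ : Type) [Fintype Γ] (L : Set (List Γ)), InSigmaTwo L → PolyReduces L (IsoImp X) := by
  have h : IsoImp X = ISO_IMP := by
    ext w
    constructor
    · rintro ⟨φ, ψ, hw, hi⟩
      exact ⟨φ, ψ, hw, (on_iff _ φ ψ (hX φ ψ)).1 hi⟩
    · rintro ⟨φ, ψ, hw, hi⟩
      exact ⟨φ, ψ, hw, (on_iff _ φ ψ (hX φ ψ)).2 hi⟩
  rw [h]
  exact ⟨member, fun _ _ L hL => hard L hL⟩

end Pool.Agent.Results.MP_a1eae6_lc.SigmaTwoComplete
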